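import Pool.Agent.helper17.MLG.Spec

/-! Row mlg:IBP of project MLG (MP_84f457_gt): integration by parts. -/

set_option autoImplicit false
set_option linter.unusedSectionVars false

namespace Pool.Agent.MLG

open MeasureTheory Set Filter Topology Module
open scoped ENNReal ContDiff

section

variable {V : Type} [NormedAddCommGroup V] [InnerProductSpace ℝ V] [FiniteDimensional ℝ V] [MeasurableSpace V]
  [BorelSpace V] [Group V]

/-- the vector field `Z` -/
noncomputable def IBP_Z (a : V → V) (x : V) : V := rho x • fr x (a x)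

theorem IBP_smooth (hfr : ContDiff ℝ ∞ (fr : V → V →L[ℝ] V)) (hrho : ContDiff ℝ ∞ (rho : V → ℝ)) (a : V → V)
    (ha : ContDiff ℝ 1 a) : ContDiff ℝ 1 (IBP_Z a) := by
  have h1 : ContDiff ℝ 1 (fr : V → V →L[ℝ] V) := hfr.of_le (by exact_mod_cast le_top)
  have h2 : ContDiff ℝ 1 (rho : V → ℝ) := hrho.of_le (by exact_mod_cast le_top)
  exact h2.smul (h1.clm_apply ha)

theorem IBP_supp (a : V → V) (ha : HasCompactSupport a) : HasCompactSupport (IBP_Z a) := by
  apply ha.mono
  intro x hx
  rw [Function.mem_support] at hx ⊢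
  intro h0
  apply hx
  unfold IBP_Z
  rw [h0, map_zero, smul_zero]

theorem IBP_dvg (a : V → V) (x : V) : dvg a x =
    (rho x)⁻¹ * ∑ i, inner ℝ (stdOrthonormalBasis ℝ V i) (fderiv ℝ (IBP_Z a) x (stdOrthonormalBasis ℝ V i)) := by
  unfold dvg
  rw [LinearMap.trace_eq_sum_inner _ (stdOrthonormalBasis ℝ V)]
  rfl

theorem IBP_vol (hrho : Continuous (rho : V → ℝ)) (hpos : ∀ x : V, 0 < rho x) (F : V → ℝ) :
    ∫ x, F x ∂(vol V) = ∫ x, rho x * F x := by
  unfold vol
  rw [integral_withDensity_eq_integral_toReal_smul]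
  · apply integral_congr_ae
    filter_upwards with x
    rw [ENNReal.toReal_ofReal (hpos x).le, smul_eq_mul]
  · exact hrho.measurable.ennreal_ofReal
  · filter_upwards with x
    exact ENNReal.ofReal_lt_top

/-- integration by parts for one component -/
theorem IBP_comp (Z : V → V) (hZ : ContDiff ℝ 1 Z) (hs : HasCompactSupport Z) (f : V → ℝ) (hf : ContDiff ℝ 1 f) (b : V) :
    Integrable (fun x => f x * inner ℝ b (fderiv ℝ Z x b)) ∧ Integrable (fun x => fderiv ℝ f x b * inner ℝ b (Z x)) ∧
    ∫ x, f x * inner ℝ b (fderiv ℝ Z x b) = - ∫ x, fderiv ℝ f x b * inner ℝ b (Z x) := by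
  have hg : ContDiff ℝ 1 (fun x => (inner ℝ b (Z x) : ℝ)) := contDiff_const.inner ℝ hZ
  have hgs : HasCompactSupport (fun x => (inner ℝ b (Z x) : ℝ)) := by
    apply hs.mono
    intro x hx
    rw [Function.mem_support] at hx ⊢
    intro h0
    apply hx
    simp [h0]
  have hd : ∀ x, fderiv ℝ (fun y => (inner ℝ b (Z y) : ℝ)) x b = inner ℝ b (fderiv ℝ Z x b) := by
    intro x
    rw [fderiv_inner_apply ℝ (differentiableAt_const b) (hZ.differentiable (by norm_num) x)]
    simp
  have hDZ : Continuous (fun x => fderiv ℝ Z x b) := (hZ.continuous_fderiv (by norm_num)).clm_apply continuous_const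
  have hDf : Continuous (fun x => fderiv ℝ f x b) := (hf.continuous_fderiv (by norm_num)).clm_apply continuous_const
  have hi1 : Integrable (fun x => f x * inner ℝ b (fderiv ℝ Z x b)) := by
    apply Continuous.integrable_of_hasCompactSupport
    · exact hf.continuous.mul (continuous_const.inner hDZ)
    · have := hs.fderiv (𝕜 := ℝ)
      apply this.mono
      intro x hx
      rw [Function.mem_support] at hx ⊢
      intro h0
      apply hx
      simp [h0]
  have hi2 : Integrable (fun x => fderiv ℝ f x b * inner ℝ b (Z x)) := by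
    apply Continuous.integrable_of_hasCompactSupport
    · exact hDf.mul (continuous_const.inner hZ.continuous)
    · apply hs.mono
      intro x hx
      rw [Function.mem_support] at hx ⊢
      intro h0
      apply hx
      simp [h0]
  have hi3 : Integrable (fun x => f x * inner ℝ b (Z x)) := by
    apply Continuous.integrable_of_hasCompactSupport
    · exact hf.continuous.mul (continuous_const.inner hZ.continuous)
    · apply hs.mono
      intro x hx
      rw [Function.mem_support] at hx ⊢
      intro h0
      apply hx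
      simp [h0]
  refine ⟨hi1, hi2, ?_⟩
  have key := integral_mul_fderiv_eq_neg_fderiv_mul_of_integrable (μ := (volume : Measure V)) (𝕜 := ℝ) (f := f)
    (g := fun x => (inner ℝ b (Z x) : ℝ)) (v := b) hi2 (by simpa only [hd] using hi1) hi3
    (fun x _ => hf.differentiable (by norm_num) x) (fun x _ => hg.differentiable (by norm_num) x)
  simp only [hd] at key
  exact key

end

theorem IBP (hFRA : FRA_stmt) : IBP_stmt := by
  intro V _ _ _ _ _ _ hV a ha hsa
  obtain ⟨hfr, _, _, _, hrho, hpos, _⟩ := hFRA V hV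
  have hZ : ContDiff ℝ 1 (IBP_Z a) := IBP_smooth hfr hrho a ha
  have hZs : HasCompactSupport (IBP_Z a) := IBP_supp a hsa
  have hrc : Continuous (rho : V → ℝ) := hrho.continuous
  refine ⟨?_, ?_, ?_⟩
  · have h1 : (dvg a : V → ℝ) = fun x => (rho x)⁻¹ * ∑ i, inner ℝ (stdOrthonormalBasis ℝ V i)
        (fderiv ℝ (IBP_Z a) x (stdOrthonormalBasis ℝ V i)) := funext (IBP_dvg a)
    rw [h1]
    apply Continuous.mul
    · exact hrc.inv₀ (fun x => (hpos x).ne')
    · apply continuous_finsetSum
      intro i _
      exact continuous_const.inner ((hZ.continuous_fderiv (by norm_num)).clm_apply continuous_const)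
  · have := hZs.fderiv (𝕜 := ℝ)
    apply this.mono
    intro x hx
    rw [Function.mem_support] at hx ⊢
    intro h0
    apply hx
    rw [IBP_dvg, h0]
    simp
  · intro f hf
    rw [IBP_vol hrc hpos, IBP_vol hrc hpos]
    have h1 : ∀ x : V, rho x * (f x * dvg a x) = ∑ i, f x * inner ℝ (stdOrthonormalBasis ℝ V i)
        (fderiv ℝ (IBP_Z a) x (stdOrthonormalBasis ℝ V i)) := by
      intro x
      rw [IBP_dvg, ← Finset.mul_sum]
      have := (hpos x).ne'
      field_simp
    have h2 : ∀ x : V, rho x * inner ℝ (gr f x) (a x) = ∑ i, fderiv ℝ f x (stdOrthonormalBasis ℝ V i) *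
        inner ℝ (stdOrthonormalBasis ℝ V i) (IBP_Z a x) := by
      intro x
      rw [inner_gr]
      have e1 : rho x * fderiv ℝ f x (fr x (a x)) = fderiv ℝ f x (IBP_Z a x) := by
        unfold IBP_Z
        rw [map_smul, smul_eq_mul]
      rw [e1]
      conv_lhs => rw [← (stdOrthonormalBasis ℝ V).sum_repr' (IBP_Z a x)]
      rw [map_sum]
      apply Finset.sum_congr rfl
      intro i _
      rw [map_smul, smul_eq_mul, mul_comm]
    simp only [h1, h2]
    rw [integral_finsetSum, integral_finsetSum, ← Finset.sum_neg_distrib]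
    · apply Finset.sum_congr rfl
      intro i _
      exact (IBP_comp (IBP_Z a) hZ hZs f hf _).2.2
    · intro i _
      exact (IBP_comp (IBP_Z a) hZ hZs f hf _).2.1
    · intro i _
      exact (IBP_comp (IBP_Z a) hZ hZs f hf _).1

end Pool.Agent.MLG
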